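import Pool.Agent.Results.MP_75a0ab_co.NotDense
import Pool.Agent.Y767.SH.Signs

set_option autoImplicit false

namespace Pool.Agent.Results.MP_75a0ab_co.OpenExponential

open Pool.Agent.Results.MP_75a0ab_co.NotDense Pool.Agent.Y767.SH

/-- nearly orthogonal sign vectors give a system -/
lemma SC_signs {n m : ℕ} (hn : 0 < n) (v : Fin m → Fin n → Bool)
    (h : ∀ i j, i ≠ j → |ip (v i) (v j)| < n / 3) : SC (n + 1) m := by
  have hn' : (0:ℝ) < n := by exact_mod_cast hn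
  have key : ∀ i j, ∑ k, (Fin.cons (-(1 / 2)) (fun k => 3 / (2 * (n:ℝ)) * sg (v i k)) :
      Fin (n + 1) → ℝ) k * (Fin.cons 1 (fun k => sg (v j k)) : Fin (n + 1) → ℝ) k =
      -(1 / 2) + 3 / (2 * (n:ℝ)) * ip (v i) (v j) := by
    intro i j
    rw [Fin.sum_univ_succ]
    simp only [Fin.cons_zero, Fin.cons_succ]
    rw [ip, Finset.mul_sum]
    congr 1
    · ring
    · exact Finset.sum_congr rfl fun k _ => by ring
  refine ⟨fun i => Fin.cons 1 (fun k => sg (v i k)),
    fun i => Fin.cons (-(1 / 2)) (fun k => 3 / (2 * (n:ℝ)) * sg (v i k)),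
    Fin.cons 1 (fun _ => 0), ?_, ?_, ?_⟩
  · intro i
    rw [key, ip_self]
    field_simp
    norm_num
  · intro i j hij
    rw [key]
    have h1 := abs_lt.1 (h i j hij)
    have h2 : 3 / (2 * (n:ℝ)) * (n / 3) = 1 / 2 := by field_simp
    have h3 : (0:ℝ) < 3 / (2 * n) := by positivity
    have h4 := mul_lt_mul_of_pos_left h1.1 h3
    have h5 := mul_lt_mul_of_pos_left h1.2 h3
    rw [mul_neg, h2] at h4
    rw [h2] at h5
    constructor <;> linarith
  · intro i
    rw [Fin.sum_univ_succ]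
    simp only [Fin.cons_zero, Fin.cons_succ, mul_zero, Finset.sum_const_zero]
    norm_num

/-- In every dimension `d ≥ 7` there is a number `m` larger than `2 d` and at least
`exp ((d - 1) / 18) / 2`, an origin-symmetric convex body `K₀` and `ε > 0` such that every
origin-symmetric convex body within Hausdorff distance `ε` of `K₀` has separable Hadwiger number
at least `m`. -/
theorem result (d : ℕ) (hd : 7 ≤ d) :
    ∃ m : ℕ, 2 * d < m ∧ Real.exp (((d : ℝ) - 1) / 18) / 2 ≤ m ∧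
      ∃ K₀ : SymBody d, ∃ ε : ℝ, 0 < ε ∧ ∀ K : SymBody d, dist K K₀ < ε →
        (m : ℕ∞) ≤ Hsep (K.1 : Set (E d)) := by
  obtain ⟨m₁, hm₁, hs₁⟩ := exists_SC d hd
  obtain ⟨m₂, v, hm₂, hv⟩ := exists_signs (d - 1)
  have hs₂ : SC d m₂ := by
    have := SC_signs (show 0 < d - 1 by omega) v hv
    rwa [show d - 1 + 1 = d by omega] at this
  have hc : ((d - 1 : ℕ) : ℝ) = (d:ℝ) - 1 := by
    rw [Nat.cast_sub (by omega)]
    simp
  rw [hc] at hm₂
  obtain ⟨m, h1, h2, hs⟩ : ∃ m, m₁ ≤ m ∧ m₂ ≤ m ∧ SC d m := by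
    rcases le_total m₁ m₂ with h | h
    · exact ⟨m₂, h, le_rfl, hs₂⟩
    · exact ⟨m₁, le_rfl, h, hs₁⟩
  obtain ⟨K₀, ε, hε, H⟩ := SC_robust (by omega) hs
  refine ⟨m, by omega, hm₂.trans (by exact_mod_cast h2), K₀, ε, hε, H⟩

end Pool.Agent.Results.MP_75a0ab_co.OpenExponential
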